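import Mathlib

/-!
# The three matrices
-/

namespace Q20.ChiralInt

variable {F : Type*} [Field F]

/-- The matrix of `σ₁`. -/
def mat₁ (ω₁ : F) : Matrix (Fin 2) (Fin 2) F :=
  (1 / 2 : F) • !![ω₁, ω₁ + 2; ω₁ - 2, ω₁]

/-- The matrix of `σ₂`. -/
def mat₂ (ω₁ : F) : Matrix (Fin 2) (Fin 2) F :=
  (1 / 2 : F) • !![2 + ω₁, ω₁; -ω₁, 2 - ω₁]

/-- The matrix of `σ₃`, where `r` is a square root of `Ω`. -/
def mat₃ (ω₁ ω₂ r : F) : Matrix (Fin 2) (Fin 2) F :=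
  !![ω₂ / (2 * ω₁) * (ω₁ - 2), r / (2 * ω₁); r / (2 * ω₁), ω₂ / (2 * ω₁) * (ω₁ + 2)]

end Q20.ChiralInt
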