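import Mathlib

namespace Q20.ChiralInt

variable {F : Type*} [Field F] [Finite F]

lemma mem_iff_pow {K : Subfield F} {x : F} : x ∈ K ↔ x ^ Nat.card K = x := by
  classical
  have : Fintype F := Fintype.ofFinite F
  have : Fintype K := Fintype.ofFinite K
  rw [Nat.card_eq_fintype_card]
  constructor
  · intro hx
    have := FiniteField.pow_card (⟨x, hx⟩ : K)
    exact congrArg Subtype.val this
  · intro hx
    -- the roots of `X ^ q - X`
    have hq : 1 < Fintype.card K := Fintype.one_lt_card
    set P : Polynomial F := Polynomial.X ^ Fintype.card K - Polynomial.X with hP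
    have hP0 : P ≠ 0 := FiniteField.X_pow_card_sub_X_ne_zero F hq
    have hdeg : P.natDegree = Fintype.card K := FiniteField.X_pow_card_sub_X_natDegree_eq F hq
    have hroot : ∀ y : F, y ∈ P.roots.toFinset ↔ y ^ Fintype.card K = y := by
      intro y
      rw [Multiset.mem_toFinset, Polynomial.mem_roots hP0, Polynomial.IsRoot, hP]
      simp [sub_eq_zero]
    have hsub : Finset.univ.image (Subtype.val : K → F) ⊆ P.roots.toFinset := by
      intro y hy
      rw [Finset.mem_image] at hy
      obtain ⟨k, -, rfl⟩ := hy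
      rw [hroot]
      have := FiniteField.pow_card k
      exact congrArg Subtype.val this
    have hcard : P.roots.toFinset.card ≤ (Finset.univ.image (Subtype.val : K → F)).card := by
      rw [Finset.card_image_of_injective _ Subtype.val_injective, Finset.card_univ, ← hdeg]
      exact (Multiset.toFinset_card_le _).trans (Polynomial.card_roots' P)
    have heq := Finset.eq_of_subset_of_card_le hsub hcard
    have hmem : x ∈ P.roots.toFinset := (hroot x).2 hx
    rw [← heq, Finset.mem_image] at hmem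
    obtain ⟨k, -, rfl⟩ := hmem
    exact k.2

variable {p : ℕ} [hp : Fact p.Prime]

lemma pow_mem_inter {e₁ e₂ : ℕ} [CharP F p] (hcop : Nat.Coprime e₁ e₂) {K₁ K₂ : Subfield F}
    (hK₁ : Nat.card K₁ = p ^ e₁) (hK₂ : Nat.card K₂ = p ^ e₂) {z : F} (h₁ : z ∈ K₁)
    (h₂ : z ∈ K₂) : z ^ p = z := by
  rw [mem_iff_pow, hK₁] at h₁
  rw [mem_iff_pow, hK₂] at h₂
  have a1 : Function.IsPeriodicPt (fun x : F => x ^ p) e₁ z := by
    have : (fun x : F => x ^ p)^[e₁] z = z ^ p ^ e₁ := by
      rw [show (fun x : F => x ^ p) = (frobenius F p) from rfl, iterate_frobenius]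
    exact this.trans h₁
  have a2 : Function.IsPeriodicPt (fun x : F => x ^ p) e₂ z := by
    have : (fun x : F => x ^ p)^[e₂] z = z ^ p ^ e₂ := by
      rw [show (fun x : F => x ^ p) = (frobenius F p) from rfl, iterate_frobenius]
    exact this.trans h₂
  have a3 := a1.gcd a2
  rw [hcop] at a3
  exact a3

/-- the square of `j + 1/j` does not lie in the prime field -/
lemma order_contra {e : ℕ} [CharP F p] (h2p : 2 < p) (he : 3 ≤ e) {K : Subfield F}
    (hK : Nat.card K = p ^ e) (j : Kˣ) (hj : ∀ y : Kˣ, y ∈ Subgroup.zpowers j)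
    (h : ((((j : K) : F) + ((j : K) : F)⁻¹) ^ 2) ^ p =
      (((j : K) : F) + ((j : K) : F)⁻¹) ^ 2) : False := by
  have hord : orderOf j = p ^ e - 1 := by
    rw [orderOf_eq_card_of_forall_mem_zpowers hj]
    have : Fintype K := Fintype.ofFinite K
    classical
    rw [Nat.card_eq_fintype_card, Fintype.card_units, ← Nat.card_eq_fintype_card, hK]
  set J : F := ((j : K) : F) with hJ
  have hJ0 : J ≠ 0 := by
    intro h0
    have : (j : K) = 0 := Subtype.ext h0
    exact j.ne_zero this
  set y : F := J ^ 2 with hy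
  have hy0 : y ≠ 0 := pow_ne_zero 2 hJ0
  have e1 : (J + J⁻¹) ^ 2 = y + y⁻¹ + 2 := by
    rw [hy]; field_simp; ring
  rw [e1] at h
  have h2 : (y + y⁻¹ + 2) ^ p = y ^ p + (y ^ p)⁻¹ + 2 := by
    have : (y + y⁻¹ + 2) ^ p = frobenius F p (y + y⁻¹ + 2) := rfl
    rw [this, map_add, map_add, map_inv₀]
    have h22 : frobenius F p 2 = 2 := map_ofNat (frobenius F p) 2
    rw [h22]; rfl
  rw [h2] at h
  have hyp0 : y ^ p ≠ 0 := pow_ne_zero p hy0
  have h3 : (y ^ p - y) * (y ^ p * y - 1) = 0 := by
    have h4 : y ^ p + (y ^ p)⁻¹ = y + y⁻¹ := by linear_combination h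
    field_simp at h4
    linear_combination h4
  -- a power of `j` is trivial
  have key : ∃ m, 0 < m ∧ m ≤ 2 * (p + 1) ∧ j ^ m = 1 := by
    rcases mul_eq_zero.1 h3 with h5 | h5
    · refine ⟨2 * (p - 1), by omega, by omega, ?_⟩
      have h6 : y ^ (p - 1) = 1 := by
        have : y ^ (p - 1) * y = 1 * y := by
          rw [← pow_succ, Nat.sub_add_cancel (by omega), one_mul]
          linear_combination h5
        exact mul_right_cancel₀ hy0 this
      apply Units.ext
      apply Subtype.ext
      push_cast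
      rw [← hJ, pow_mul, ← hy, h6]
    · refine ⟨2 * (p + 1), by omega, le_rfl, ?_⟩
      have h6 : y ^ (p + 1) = 1 := by
        rw [pow_succ]; linear_combination h5
      apply Units.ext
      apply Subtype.ext
      push_cast
      rw [← hJ, pow_mul, ← hy, h6]
  obtain ⟨m, hm0, hm, hjm⟩ := key
  have h7 := Nat.le_of_dvd hm0 (orderOf_dvd_of_pow_eq_one hjm)
  rw [hord] at h7
  have h8 : p ^ 3 ≤ p ^ e := Nat.pow_le_pow_right (by omega) he
  have h9 : p ^ 3 = p * p * p := by ring
  have h10 : 3 * 3 * p ≤ p * p * p := by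
    apply Nat.mul_le_mul_right
    exact Nat.mul_le_mul h2p h2p
  omega

end Q20.ChiralInt
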