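import Pool.Agent.Q20.ChiralInt.Main

namespace Q20.ChiralInt

open Matrix

variable {F : Type*} [Field F]

/-- the projective special linear group -/
abbrev PSL2 (F : Type*) [Field F] := Matrix.ProjectiveSpecialLinearGroup (Fin 2) F

/-- the projection -/
def pr : SL2 F →* PSL2 F := QuotientGroup.mk' _

/-- the first change of basis -/
def B₁ (ω₁ : F) : Mat F := !![ω₁, 1; -ω₁, 1]

/-- unipotent matrices -/
def un (b : F) : Mat F := !![1, b; 0, 1]

lemma zpow_conj {ω₁ : F} {σ : SL2 F} (h : (σ : Mat F) * B₁ ω₁ = B₁ ω₁ * un 1)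
    (k : ℤ) : ((σ ^ k : SL2 F) : Mat F) * B₁ ω₁ = B₁ ω₁ * un (k : F) := by
  have hun : ∀ a b : F, un a * un b = un (a + b) := by
    intro a b
    ext i j
    fin_cases i <;> fin_cases j <;> simp [un, Matrix.mul_apply, Fin.sum_univ_two, add_comm]
  have hun0 : un (0 : F) = 1 := by
    ext i j
    fin_cases i <;> fin_cases j <;> simp [un]
  have hinv : ((σ⁻¹ : SL2 F) : Mat F) * B₁ ω₁ = B₁ ω₁ * un (-1) := by
    have h1 : ((σ⁻¹ : SL2 F) : Mat F) * (σ : Mat F) = 1 := by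
      rw [← Matrix.SpecialLinearGroup.coe_mul, inv_mul_cancel, Matrix.SpecialLinearGroup.coe_one]
    calc ((σ⁻¹ : SL2 F) : Mat F) * B₁ ω₁
        = ((σ⁻¹ : SL2 F) : Mat F) * (B₁ ω₁ * (un 1 * un (-1))) := by
          rw [hun, add_neg_cancel, hun0, Matrix.mul_one]
      _ = ((σ⁻¹ : SL2 F) : Mat F) * ((B₁ ω₁ * un 1) * un (-1)) := by
          rw [Matrix.mul_assoc]
      _ = ((σ⁻¹ : SL2 F) : Mat F) * (((σ : Mat F) * B₁ ω₁) * un (-1)) := by rw [h]
      _ = (((σ⁻¹ : SL2 F) : Mat F) * (σ : Mat F)) * B₁ ω₁ * un (-1) := by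
          simp only [Matrix.mul_assoc]
      _ = B₁ ω₁ * un (-1) := by rw [h1, Matrix.one_mul]
  induction k using Int.induction_on with
  | zero => simp [hun0]
  | succ i ih =>
    rw [_root_.zpow_add_one, Matrix.SpecialLinearGroup.coe_mul, Matrix.mul_assoc, h, ← Matrix.mul_assoc,
      ih, Matrix.mul_assoc, hun]
    push_cast; rfl
  | pred i ih =>
    rw [_root_.zpow_sub_one, Matrix.SpecialLinearGroup.coe_mul, Matrix.mul_assoc, hinv,
      ← Matrix.mul_assoc, ih, Matrix.mul_assoc, hun]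
    push_cast
    rw [sub_eq_add_neg]

lemma pr_neg (M : SL2 F) : pr (-M) = pr M := by
  have h1 : pr (-1 : SL2 F) = 1 := by
    change (QuotientGroup.mk (-1 : SL2 F) : PSL2 F) = 1
    rw [QuotientGroup.eq_one_iff, Matrix.SpecialLinearGroup.mem_center_iff]
    refine ⟨-1, by simp, ?_⟩
    ext i j
    fin_cases i <;> fin_cases j <;> simp
  rw [← neg_one_mul M, map_mul, h1, one_mul]

variable [Finite F] {p : ℕ} [hp : Fact p.Prime]
variable {e₁ e₂ : ℕ} {K₁ K₂ : Subfield F} {j₁ : K₁ˣ} {j₂ : K₂ˣ}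

theorem main (hF : ∃ n, Nat.card F = p ^ n) (S : Setup p e₁ e₂ K₁ K₂ j₁ j₂) {ω₁ ω₂ r : F}
    (hω₁ : ω₁ = ((j₁ : K₁) : F) + ((j₁ : K₁) : F)⁻¹)
    (hω₂ : ω₂ = ((j₂ : K₂) : F) + ((j₂ : K₂) : F)⁻¹)
    (hr : r ^ 2 = ω₁ ^ 2 * ω₂ ^ 2 - 4 * (ω₁ ^ 2 + ω₂ ^ 2))
    (σ₁ σ₂ σ₃ : SL2 F) (hσ₁ : (σ₁ : Mat F) = mat₁ ω₁) (hσ₂ : (σ₂ : Mat F) = mat₂ ω₁)
    (hσ₃ : (σ₃ : Mat F) = mat₃ ω₁ ω₂ r) :
    Subgroup.closure {pr σ₁, pr σ₂} ⊓ Subgroup.closure {pr σ₂, pr σ₃} =
      Subgroup.zpowers (pr σ₂) := by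
  classical
  have hchar : CharP F p := by
    obtain ⟨n, hn⟩ := hF
    have : Fintype F := Fintype.ofFinite F
    rw [Nat.card_eq_fintype_card] at hn
    exact charP_of_card_eq_prime_pow hn
  have h2 : (2 : F) ≠ 0 := by
    intro h
    have h' : ((2 : ℕ) : F) = 0 := by exact_mod_cast h
    rw [CharP.cast_eq_zero_iff F p] at h'
    have := Nat.le_of_dvd (by norm_num) h'
    have := S.h2p
    omega
  have h4 : (4 : F) ≠ 0 := by
    have : (4 : F) = 2 * 2 := by norm_num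
    rw [this]; exact mul_ne_zero h2 h2
  have hω₁0 : ω₁ ≠ 0 := by
    intro h0
    apply order_contra S.h2p S.he₁ S.hK₁ j₁ S.hj₁
    rw [← hω₁, h0, zero_pow (by norm_num), zero_pow hp.out.ne_zero]
  have hω₂0 : ω₂ ≠ 0 := by
    intro h0
    apply order_contra S.h2p S.he₂ S.hK₂ j₂ S.hj₂
    rw [← hω₂, h0, zero_pow (by norm_num), zero_pow hp.out.ne_zero]
  have mω₁ : ω₁ ∈ K₁ := by
    rw [hω₁]; exact K₁.add_mem (j₁ : K₁).2 (K₁.inv_mem (j₁ : K₁).2)
  have mω₂ : ω₂ ∈ K₂ := by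
    rw [hω₂]; exact K₂.add_mem (j₂ : K₂).2 (K₂.inv_mem (j₂ : K₂).2)
  have two₂ : (2 : F) ∈ K₂ := by exact_mod_cast natCast_mem K₂ 2
  have four₂ : (4 : F) ∈ K₂ := by exact_mod_cast natCast_mem K₂ 4
  set x : F := r / (2 * ω₁) with hx
  set β : F := x / ω₂ with hβdef
  have hx2 : x ^ 2 = ω₂ ^ 2 / 4 - ω₂ ^ 2 / ω₁ ^ 2 - 1 := by
    rw [hx, div_pow, hr]
    field_simp
    ring
  have hβ2 : β ^ 2 = 1 / 4 - (ω₁ ^ 2)⁻¹ - (ω₂ ^ 2)⁻¹ := by
    rw [hβdef, div_pow, hx2]
    field_simp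
  have hxβ : x = β * ω₂ := by rw [hβdef]; field_simp
  clear_value β x
  -- the four memberships
  have m1 : σ₁ ∈ conjSub K₁ (B₁ ω₁) := by
    apply mem_conjSub_of (a := 0) (b := ω₁⁻¹) (c := -ω₁) (d := ω₁) K₁.zero_mem
      (K₁.inv_mem mω₁) (K₁.neg_mem mω₁) mω₁ (by field_simp; ring)
    rw [hσ₁]
    ext i j
    fin_cases i <;> fin_cases j <;>
      simp [mat₁, B₁, Matrix.mul_apply, Fin.sum_univ_two] <;> field_simp <;> ring
  have hconj2 : (σ₂ : Mat F) * B₁ ω₁ = B₁ ω₁ * un 1 := by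
    rw [hσ₂]
    ext i j
    fin_cases i <;> fin_cases j <;>
      simp [mat₂, B₁, un, Matrix.mul_apply, Fin.sum_univ_two] <;> field_simp <;> ring
  have m2 : σ₂ ∈ conjSub K₁ (B₁ ω₁) :=
    mem_conjSub_of (a := 1) (b := 1) (c := 0) (d := 1) K₁.one_mem K₁.one_mem K₁.zero_mem
      K₁.one_mem (by ring) hconj2
  have m2' : σ₂ ∈ conjSub K₂ (B₁ ω₁ * un β) := by
    apply mem_conjSub_of (a := 1) (b := 1) (c := 0) (d := 1) K₂.one_mem K₂.one_mem K₂.zero_mem
      K₂.one_mem (by ring)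
    rw [← Matrix.mul_assoc, hconj2, Matrix.mul_assoc, Matrix.mul_assoc]
    congr 1
    ext i j
    fin_cases i <;> fin_cases j <;>
      simp [un, Matrix.mul_apply, Fin.sum_univ_two, add_comm]
  have m3 : σ₃ ∈ conjSub K₂ (B₁ ω₁ * un β) := by
    apply mem_conjSub_of (a := ω₂ / 2) (b := 1 / ω₂ - ω₂ / 4) (c := -ω₂) (d := ω₂ / 2)
      (K₂.div_mem mω₂ two₂) (K₂.sub_mem (K₂.div_mem K₂.one_mem mω₂) (K₂.div_mem mω₂ four₂))
      (K₂.neg_mem mω₂) (K₂.div_mem mω₂ two₂) (by field_simp; ring)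
    have key : ω₁ ^ 2 * (4 * β ^ 2 * ω₂ ^ 2 + 4 - ω₂ ^ 2) + 4 * ω₂ ^ 2 = 0 := by
      rw [hβ2]; field_simp; ring
    have h3 : (σ₃ : Mat F) = !![ω₂ / (2 * ω₁) * (ω₁ - 2), β * ω₂;
        β * ω₂, ω₂ / (2 * ω₁) * (ω₁ + 2)] := by
      rw [hσ₃, mat₃, ← hx, hxβ]
    rw [h3]
    ext i j
    fin_cases i <;> fin_cases j
    · simp [B₁, un, Matrix.mul_apply, Fin.sum_univ_two]
      field_simp
      ring
    · simp [B₁, un, Matrix.mul_apply, Fin.sum_univ_two]
      field_simp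
      linear_combination (-2) * key
    · simp [B₁, un, Matrix.mul_apply, Fin.sum_univ_two]
      field_simp
      ring
    · simp [B₁, un, Matrix.mul_apply, Fin.sum_univ_two]
      field_simp
      linear_combination 2 * key
  apply le_antisymm
  · intro g hg
    obtain ⟨hg1, hg2⟩ := Subgroup.mem_inf.1 hg
    have hle1 : Subgroup.closure {pr σ₁, pr σ₂} ≤ (conjSub K₁ (B₁ ω₁)).map pr := by
      rw [Subgroup.closure_le]
      rintro y (rfl | rfl)
      · exact ⟨σ₁, m1, rfl⟩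
      · exact ⟨σ₂, m2, rfl⟩
    have hle2 : Subgroup.closure {pr σ₂, pr σ₃} ≤ (conjSub K₂ (B₁ ω₁ * un β)).map pr := by
      rw [Subgroup.closure_le]
      rintro y (rfl | rfl)
      · exact ⟨σ₂, m2', rfl⟩
      · exact ⟨σ₃, m3, rfl⟩
    obtain ⟨M, hM1, rfl⟩ := hle1 hg1
    obtain ⟨M', hM', hMM'⟩ := hle2 hg2
    have hM2 : M ∈ conjSub K₂ (B₁ ω₁ * un β) := by
      rcases eq_or_neg_of_mk_eq hMM' with h | h
      · rw [h]; exact hM'
      · rw [h, ← neg_one_mul]
        exact Subgroup.mul_mem _ (neg_one_mem _ _) hM'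
    obtain ⟨N, hN⟩ := mem_conjSub.1 hM1
    obtain ⟨N', hN'⟩ := mem_conjSub.1 hM2
    -- cancel the change of basis
    have hB : IsUnit (B₁ ω₁) := by
      rw [Matrix.isUnit_iff_isUnit_det, isUnit_iff_ne_zero]
      simp only [B₁, Matrix.det_fin_two_of]
      intro h
      have : 2 * ω₁ = 0 := by linear_combination h
      exact (mul_ne_zero h2 hω₁0) this
    have hNN : (ext' K₁ N : Mat F) * un β = un β * (ext' K₂ N' : Mat F) := by
      have h5 : B₁ ω₁ * ((ext' K₁ N : Mat F) * un β) = B₁ ω₁ * (un β * (ext' K₂ N' : Mat F)) := by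
        rw [← Matrix.mul_assoc, ← hN, Matrix.mul_assoc, hN', Matrix.mul_assoc]
      exact (IsUnit.mul_right_inj hB).1 h5
    -- entries
    have en : ∀ i j, (ext' K₁ N : Mat F) i j = ((N : Mat K₁) i j : F) := fun i j => rfl
    have en' : ∀ i j, (ext' K₂ N' : Mat F) i j = ((N' : Mat K₂) i j : F) := fun i j => rfl
    have q00 := congrFun (congrFun hNN 0) 0
    have q01 := congrFun (congrFun hNN 0) 1
    have q10 := congrFun (congrFun hNN 1) 0
    have q11 := congrFun (congrFun hNN 1) 1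
    simp only [un, Matrix.mul_apply, Fin.sum_univ_two, en, en', Matrix.of_apply,
      Matrix.cons_val', Matrix.cons_val_zero, Matrix.cons_val_one,
      Matrix.cons_val_fin_one, mul_one, mul_zero, one_mul, zero_mul, add_zero, zero_add]
      at q00 q01 q10 q11
    have detN : ((N : Mat K₁) 0 0 : F) * ((N : Mat K₁) 1 1 : F) -
        ((N : Mat K₁) 0 1 : F) * ((N : Mat K₁) 1 0 : F) = 1 := by
      have h5 := N.det_coe
      rw [Matrix.det_fin_two] at h5
      exact congrArg Subtype.val h5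
    have ma : ((N : Mat K₁) 0 0 : F) ∈ K₁ := ((N : Mat K₁) 0 0).2
    have mb : ((N : Mat K₁) 0 1 : F) ∈ K₁ := ((N : Mat K₁) 0 1).2
    have mc : ((N : Mat K₁) 1 0 : F) ∈ K₁ := ((N : Mat K₁) 1 0).2
    have md : ((N : Mat K₁) 1 1 : F) ∈ K₁ := ((N : Mat K₁) 1 1).2
    have ma' : ((N' : Mat K₂) 0 0 : F) ∈ K₂ := ((N' : Mat K₂) 0 0).2
    have mb' : ((N' : Mat K₂) 0 1 : F) ∈ K₂ := ((N' : Mat K₂) 0 1).2
    have mc' : ((N' : Mat K₂) 1 0 : F) ∈ K₂ := ((N' : Mat K₂) 1 0).2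
    have md' : ((N' : Mat K₂) 1 1 : F) ∈ K₂ := ((N' : Mat K₂) 1 1).2
    have hNent : (ext' K₁ N : Mat F) = !![((N : Mat K₁) 0 0 : F), ((N : Mat K₁) 0 1 : F);
        ((N : Mat K₁) 1 0 : F), ((N : Mat K₁) 1 1 : F)] := by
      ext i j
      fin_cases i <;> fin_cases j <;> rfl
    generalize ((N : Mat K₁) 0 0 : F) = a at *
    generalize ((N : Mat K₁) 0 1 : F) = b at *
    generalize ((N : Mat K₁) 1 0 : F) = c at *
    generalize ((N : Mat K₁) 1 1 : F) = d at *
    generalize ((N' : Mat K₂) 0 0 : F) = a' at *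
    generalize ((N' : Mat K₂) 0 1 : F) = b' at *
    generalize ((N' : Mat K₂) 1 0 : F) = c' at *
    generalize ((N' : Mat K₂) 1 1 : F) = d' at *
    -- `q00 : a = a' + β c'`, `q01 : a β + b = b' + β d'`, `q10 : c = c'`, `q11 : c β + d = d'`
    by_cases hc : c = 0
    · have hc' : c' = 0 := by rw [← q10]; exact hc
      have haa : a = a' := by rw [q00, hc', mul_zero, add_zero]
      have hdd : d = d' := by rw [← q11, hc, zero_mul, zero_add]
      by_cases had : a = d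
      · -- unipotent up to sign
        have hbb : b = b' := by
          rw [← hdd, ← had] at q01
          linear_combination q01
        have hb0 : b ^ p = b := pow_mem_inter S.hcop S.hK₁ S.hK₂ mb (hbb ▸ mb')
        obtain ⟨m, hm⟩ := (mem_bot_iff_intCast p F).1 ((Subfield.mem_bot_iff_pow_eq_self (F := F) (p := p)).2 hb0)
        have ha2 : a = 1 ∨ a = -1 := by
          rw [hc, ← had, mul_zero, sub_zero] at detN
          have : (a - 1) * (a + 1) = 0 := by linear_combination detN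
          rcases mul_eq_zero.1 this with h | h
          · left; linear_combination h
          · right; linear_combination h
        rcases ha2 with ha | ha
        · have hMeq : M = σ₂ ^ m := by
            apply Subtype.ext
            change (M : Mat F) = ((σ₂ ^ m : SL2 F) : Mat F)
            apply (IsUnit.mul_left_inj hB).1
            rw [zpow_conj hconj2, hN, hNent, ← had, hc, ha, hm]
            rfl
          rw [hMeq, map_zpow]
          exact Subgroup.zpow_mem _ (Subgroup.mem_zpowers _) m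
        · have hMeq : M = -(σ₂ ^ (-m)) := by
            apply Subtype.ext
            change (M : Mat F) = ((-(σ₂ ^ (-m)) : SL2 F) : Mat F)
            apply (IsUnit.mul_left_inj hB).1
            rw [Matrix.SpecialLinearGroup.coe_neg, neg_mul, zpow_conj hconj2, hN, hNent, ← had,
              hc, ha, ← hm, ← mul_neg]
            congr 1
            ext i j
            fin_cases i <;> fin_cases j <;> simp [un]
          rw [hMeq, pr_neg, map_zpow]
          exact Subgroup.zpow_mem _ (Subgroup.mem_zpowers _) _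
      · exfalso
        have had' : a - d ≠ 0 := sub_ne_zero.2 had
        apply beta_not_sum S hω₁ hω₂ hβ2 (s := -b / (a - d)) (t := b' / (a' - d'))
        · exact K₁.div_mem (K₁.neg_mem mb) (K₁.sub_mem ma md)
        · exact K₂.div_mem mb' (K₂.sub_mem ma' md')
        · rw [← haa, ← hdd, ← add_div, eq_div_iff had']
          rw [← hdd] at q01
          linear_combination q01
    · exfalso
      have hc' : c' ≠ 0 := by rw [← q10]; exact hc
      apply beta_not_sum S hω₁ hω₂ hβ2 (s := a / c) (t := -a' / c')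
      · exact K₁.div_mem ma mc
      · exact K₂.div_mem (K₂.neg_mem ma') mc'
      · rw [← q10] at q00 ⊢
        rw [← add_div, eq_div_iff hc]
        linear_combination -q00
  · apply le_inf
    · rw [Subgroup.zpowers_le]
      exact Subgroup.subset_closure (by simp)
    · rw [Subgroup.zpowers_le]
      exact Subgroup.subset_closure (by simp)

end Q20.ChiralInt
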