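import Pool.Agent.Q20.ChiralInt.Defs
import Pool.Agent.Q20.ChiralInt.Fields

namespace Q20.ChiralInt

open Matrix

variable {F : Type*} [Field F] [Finite F] {p : ℕ} [hp : Fact p.Prime]

/-- linear disjointness, in the form needed -/
lemma prod_in_sum {e₁ : ℕ} [CharP F p] {K₁ K₂ : Subfield F}
    (hK₁ : Nat.card K₁ = p ^ e₁) {s t A B : F} (hs : s ∈ K₁)
    (ht : t ∈ K₂) (hA : A ∈ K₁) (hB : B ∈ K₂) (h : s * t = A + B) :
    t ∈ K₁ ∨ s ∈ K₂ := by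
  by_cases htt : t ^ p ^ e₁ = t
  · left
    rw [mem_iff_pow, hK₁]; exact htt
  · right
    have hs' : s ^ p ^ e₁ = s := by rw [← hK₁]; exact mem_iff_pow.1 hs
    have hA' : A ^ p ^ e₁ = A := by rw [← hK₁]; exact mem_iff_pow.1 hA
    have h1 : s * t ^ p ^ e₁ = A + B ^ p ^ e₁ := by
      have := congrArg (iterateFrobenius F p e₁) h
      rw [map_mul, map_add] at this
      simp only [iterateFrobenius_def] at this
      rw [hs', hA'] at this
      exact this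
    have h2 : s * (t ^ p ^ e₁ - t) = B ^ p ^ e₁ - B := by linear_combination h1 - h
    have h3 : s = (B ^ p ^ e₁ - B) / (t ^ p ^ e₁ - t) := by
      rw [eq_div_iff (sub_ne_zero.2 htt)]
      exact h2
    rw [h3]
    exact K₂.div_mem (K₂.sub_mem (K₂.pow_mem hB _) hB) (K₂.sub_mem (K₂.pow_mem ht _) ht)

/-- the assumptions of the problem -/
structure Setup (p e₁ e₂ : ℕ) (K₁ K₂ : Subfield F) (j₁ : K₁ˣ) (j₂ : K₂ˣ) : Prop where
  h2p : 2 < p
  he₁ : 3 ≤ e₁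
  he₂ : 3 ≤ e₂
  hcop : Nat.Coprime e₁ e₂
  hK₁ : Nat.card K₁ = p ^ e₁
  hK₂ : Nat.card K₂ = p ^ e₂
  hj₁ : ∀ y : K₁ˣ, y ∈ Subgroup.zpowers j₁
  hj₂ : ∀ y : K₂ˣ, y ∈ Subgroup.zpowers j₂

variable {e₁ e₂ : ℕ} {K₁ K₂ : Subfield F} {j₁ : K₁ˣ} {j₂ : K₂ˣ}

lemma beta_not_sum [CharP F p] (S : Setup p e₁ e₂ K₁ K₂ j₁ j₂) {ω₁ ω₂ β : F}
    (hω₁ : ω₁ = ((j₁ : K₁) : F) + ((j₁ : K₁) : F)⁻¹)
    (hω₂ : ω₂ = ((j₂ : K₂) : F) + ((j₂ : K₂) : F)⁻¹)
    (hβ : β ^ 2 = 1 / 4 - (ω₁ ^ 2)⁻¹ - (ω₂ ^ 2)⁻¹) {s t : F} (hs : s ∈ K₁) (ht : t ∈ K₂)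
    (hst : β = s + t) : False := by
  have h2 : (2 : F) ≠ 0 := by
    intro h
    have h' : ((2 : ℕ) : F) = 0 := by exact_mod_cast h
    rw [CharP.cast_eq_zero_iff F p] at h'
    have := Nat.le_of_dvd (by norm_num) h'
    have := S.h2p
    omega
  have m₁ : ω₁ ^ 2 ∈ K₁ := by
    rw [hω₁]
    exact K₁.pow_mem (K₁.add_mem (j₁ : K₁).2 (K₁.inv_mem (j₁ : K₁).2)) 2
  have m₂ : ω₂ ^ 2 ∈ K₂ := by
    rw [hω₂]
    exact K₂.pow_mem (K₂.add_mem (j₂ : K₂).2 (K₂.inv_mem (j₂ : K₂).2)) 2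
  have q₁ : (1 / 4 : F) ∈ K₁ := K₁.div_mem K₁.one_mem (by exact_mod_cast natCast_mem K₁ 4)
  have q₂ : (1 / 4 : F) ∈ K₂ := K₂.div_mem K₂.one_mem (by exact_mod_cast natCast_mem K₂ 4)
  have two₁ : (2 : F) ∈ K₁ := by exact_mod_cast natCast_mem K₁ 2
  have two₂ : (2 : F) ∈ K₂ := by exact_mod_cast natCast_mem K₂ 2
  have hcase : t ∈ K₁ ∨ s ∈ K₂ := by
    apply prod_in_sum S.hK₁ hs ht (A := (1 / 4 - (ω₁ ^ 2)⁻¹ - s ^ 2) / 2)
      (B := (-(ω₂ ^ 2)⁻¹ - t ^ 2) / 2)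
    · exact K₁.div_mem (K₁.sub_mem (K₁.sub_mem q₁ (K₁.inv_mem m₁)) (K₁.pow_mem hs 2)) two₁
    · exact K₂.div_mem (K₂.sub_mem (K₂.neg_mem (K₂.inv_mem m₂)) (K₂.pow_mem ht 2)) two₂
    · rw [hst] at hβ
      field_simp
      linear_combination hβ
  rcases hcase with h | h
  · -- `β ∈ K₁`, hence `ω₂ ^ 2 ∈ K₁`
    have hβ1 : β ∈ K₁ := by rw [hst]; exact K₁.add_mem hs h
    have h3 : (ω₂ ^ 2)⁻¹ ∈ K₁ := by
      have : (ω₂ ^ 2)⁻¹ = 1 / 4 - (ω₁ ^ 2)⁻¹ - β ^ 2 := by linear_combination hβ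
      rw [this]
      exact K₁.sub_mem (K₁.sub_mem q₁ (K₁.inv_mem m₁)) (K₁.pow_mem hβ1 2)
    have h4 : ω₂ ^ 2 ∈ K₁ := by
      have := K₁.inv_mem h3
      rwa [inv_inv] at this
    have h5 := pow_mem_inter S.hcop S.hK₁ S.hK₂ h4 m₂
    rw [hω₂] at h5
    exact order_contra S.h2p S.he₂ S.hK₂ j₂ S.hj₂ h5
  · have hβ1 : β ∈ K₂ := by rw [hst]; exact K₂.add_mem h ht
    have h3 : (ω₁ ^ 2)⁻¹ ∈ K₂ := by
      have : (ω₁ ^ 2)⁻¹ = 1 / 4 - (ω₂ ^ 2)⁻¹ - β ^ 2 := by linear_combination hβ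
      rw [this]
      exact K₂.sub_mem (K₂.sub_mem q₂ (K₂.inv_mem m₂)) (K₂.pow_mem hβ1 2)
    have h4 : ω₁ ^ 2 ∈ K₂ := by
      have := K₂.inv_mem h3
      rwa [inv_inv] at this
    have h5 := pow_mem_inter S.hcop S.hK₁ S.hK₂ m₁ h4
    rw [hω₁] at h5
    exact order_contra S.h2p S.he₁ S.hK₁ j₁ S.hj₁ h5

/-- matrices -/
abbrev Mat (F : Type*) := Matrix (Fin 2) (Fin 2) F

/-- the special linear group -/
abbrev SL2 (F : Type*) [CommRing F] := Matrix.SpecialLinearGroup (Fin 2) F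

/-- extension of scalars from a subfield -/
def ext' (K : Subfield F) : SL2 K →* SL2 F := Matrix.SpecialLinearGroup.map K.subtype

/-- the elements of `SL(2,F)` which become matrices over `K` after the change of basis `B` -/
def conjSub (K : Subfield F) (B : Mat F) : Subgroup (SL2 F) where
  carrier := {M | ∃ N : SL2 K, (M : Mat F) * B = B * (ext' K N : Mat F)}
  mul_mem' := by
    rintro M M' ⟨N, hN⟩ ⟨N', hN'⟩
    refine ⟨N * N', ?_⟩
    rw [map_mul, Matrix.SpecialLinearGroup.coe_mul, Matrix.SpecialLinearGroup.coe_mul,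
      Matrix.mul_assoc, hN', ← Matrix.mul_assoc, hN, Matrix.mul_assoc]
  one_mem' := ⟨1, by
    rw [map_one, Matrix.SpecialLinearGroup.coe_one, Matrix.one_mul, Matrix.mul_one]⟩
  inv_mem' := by
    rintro M ⟨N, hN⟩
    refine ⟨N⁻¹, ?_⟩
    have h1 : ((M⁻¹ : SL2 F) : Mat F) * (M : Mat F) = 1 := by
      rw [← Matrix.SpecialLinearGroup.coe_mul, inv_mul_cancel, Matrix.SpecialLinearGroup.coe_one]
    have h2 : (ext' K N : Mat F) * (ext' K N⁻¹ : Mat F) = 1 := by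
      rw [← Matrix.SpecialLinearGroup.coe_mul, ← map_mul, mul_inv_cancel, map_one,
        Matrix.SpecialLinearGroup.coe_one]
    calc ((M⁻¹ : SL2 F) : Mat F) * B = ((M⁻¹ : SL2 F) : Mat F) * B *
          ((ext' K N : Mat F) * (ext' K N⁻¹ : Mat F)) := by
            rw [h2, Matrix.mul_one]
      _ = ((M⁻¹ : SL2 F) : Mat F) * (B * (ext' K N : Mat F)) * (ext' K N⁻¹ : Mat F) := by
            simp only [Matrix.mul_assoc]
      _ = ((M⁻¹ : SL2 F) : Mat F) * ((M : Mat F) * B) * (ext' K N⁻¹ : Mat F) := by rw [hN]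
      _ = B * (ext' K N⁻¹ : Mat F) := by
            rw [← Matrix.mul_assoc, h1, Matrix.one_mul]

lemma mem_conjSub {K : Subfield F} {B : Mat F} {M : SL2 F} : M ∈ conjSub K B ↔
      ∃ N : SL2 K, (M : Mat F) * B = B * (ext' K N : Mat F) := Iff.rfl

/-- membership from explicit entries -/
lemma mem_conjSub_of {K : Subfield F} {B : Mat F} {M : SL2 F} {a b c d : F} (ha : a ∈ K)
    (hb : b ∈ K) (hc : c ∈ K) (hd : d ∈ K) (hdet : a * d - b * c = 1)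
    (h : (M : Mat F) * B = B * !![a, b; c, d]) : M ∈ conjSub K B := by
  refine ⟨⟨!![⟨a, ha⟩, ⟨b, hb⟩; ⟨c, hc⟩, ⟨d, hd⟩], ?_⟩, ?_⟩
  · rw [Matrix.det_fin_two_of]
    apply Subtype.ext
    exact hdet
  · rw [h]
    congr 1
    ext i j
    fin_cases i <;> fin_cases j <;> rfl

lemma neg_one_mem (K : Subfield F) (B : Mat F) : (-1 : SL2 F) ∈ conjSub K B := by
  apply mem_conjSub_of (a := -1) (b := 0) (c := 0) (d := -1) (K.neg_mem K.one_mem) K.zero_mem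
    K.zero_mem (K.neg_mem K.one_mem) (by ring)
  ext i j
  fin_cases i <;> fin_cases j <;> simp [Matrix.mul_apply, Fin.sum_univ_two]

/-- two matrices with the same image in the projective group differ by a sign -/
lemma eq_or_neg_of_mk_eq {M M' : SL2 F}
    (h : (QuotientGroup.mk M : Matrix.ProjectiveSpecialLinearGroup (Fin 2) F) =
      QuotientGroup.mk M') : M' = M ∨ M' = -M := by
  rw [QuotientGroup.eq, Matrix.SpecialLinearGroup.mem_center_iff] at h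
  obtain ⟨r, hr, hr'⟩ := h
  rw [Fintype.card_fin] at hr
  have h1 : (M' : Mat F) = (M : Mat F) * ((M⁻¹ * M' : SL2 F) : Mat F) := by
    rw [← Matrix.SpecialLinearGroup.coe_mul]
    congr 1
    group
  rw [← hr'] at h1
  have hr2 : r = 1 ∨ r = -1 := by
    have : (r - 1) * (r + 1) = 0 := by linear_combination hr
    rcases mul_eq_zero.1 this with h | h
    · left; linear_combination h
    · right; linear_combination h
  rcases hr2 with rfl | rfl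
  · left
    apply Subtype.ext
    change (M' : Mat F) = (M : Mat F)
    rw [h1]
    simp
  · right
    apply Subtype.ext
    change (M' : Mat F) = ((-M : SL2 F) : Mat F)
    rw [h1]
    ext i j
    simp

end Q20.ChiralInt
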